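import Pool.Agent.P8.Final

/-!
E8-genera versus definite spin invariants of homology 3-spheres: there is a homology 3-sphere with
an `E₈`-bounding and with definite spin boundings of ranks 8 and 24, so the answer to Q1 is yes.
-/

open E8Genera

/-- There is an oriented combinatorial homology 3-sphere `(Y, z)` which has an `E₈`-bounding with
one copy of `± E₈` and definite spin boundings with second Betti numbers 8 and 24; hence at least
one of the alternatives (i), (ii), (iii) of the question holds for it. -/
theorem Pool.Agent.Results.MP_4ff4f0_gt.FullAnswer.result :
    ∃ (Y : Cpx) (z : Chain), IsHomologySphere Y z ∧ E8Bounds Y z 1 ∧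
      DefiniteSpinBounds Y z 1 ∧ DefiniteSpinBounds Y z 3 ∧ Answer Y z :=
  final77
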